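import Pool.Agent.helper79.EPT.Spec

/-! # Project EPT (MP_f10000_nt), row KBA -/

set_option autoImplicit false

open scoped Classical

namespace Pool.Agent.EPT

open Finset

lemma KBA_dist (α P₁ P₂ : ℕ) (hα : 0 < α) (h : P₁ ≠ P₂) : 0 < Nat.dist (α * P₁ + 1) (α * P₂ + 1) := by
  apply Nat.dist_pos_of_ne
  intro h1
  have h2 : α * P₁ = α * P₂ := by omega
  exact h (Nat.eq_of_mul_eq_mul_left hα h2)

theorem KBA (hSTR : STR_stmt) (hDEC : DEC_stmt) : KBA_stmt := by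
  intro W α β P₁ P₂ Q hα hP₁ hP₂ hP hc₁ hc₂ hQ
  have hδ := KBA_dist α P₁ P₂ hα hP
  set δ : ℕ := Nat.dist (α * P₁ + 1) (α * P₂ + 1) with hδdef
  set 𝒟 : Finset ℕ := (Icc 1 (P₁ * P₂ * δ)).filter (fun d => Adm W P₁ P₂ δ d) with h𝒟
  have hR : ∑ d ∈ 𝒟, (d.totient : ℝ) * ∑ q₁ ∈ Q, ∑ q₂ ∈ Q,
      (if Cd α β P₁ P₂ d q₁ q₂ then 1 / ((pr β q₁ : ℝ) * (pr β q₂ : ℝ)) else 0) =
      ∑ q₁ ∈ Q, ∑ q₂ ∈ Q, ∑ d ∈ 𝒟, (d.totient : ℝ) *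
        (if Cd α β P₁ P₂ d q₁ q₂ then 1 / ((pr β q₁ : ℝ) * (pr β q₂ : ℝ)) else 0) := by
    simp_rw [Finset.mul_sum]
    rw [Finset.sum_comm]
    refine Finset.sum_congr rfl fun q₁ _ => ?_
    rw [Finset.sum_comm]
  rw [hR]
  refine Finset.sum_le_sum fun q₁ h1 => Finset.sum_le_sum fun q₂ h2 => ?_
  obtain ⟨e1, x1, w1⟩ := hQ q₁ h1
  obtain ⟨e2, x2, w2⟩ := hQ q₂ h2
  have hnn : ∀ d ∈ 𝒟, 0 ≤ (d.totient : ℝ) *
      (if Cd α β P₁ P₂ d q₁ q₂ then 1 / ((pr β q₁ : ℝ) * (pr β q₂ : ℝ)) else 0) := by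
    intro d _
    split_ifs
    · positivity
    · simp
  unfold cc
  split_ifs with hg
  · set g : ℕ := Nat.gcd (P₁ * pr β q₁) (P₂ * pr β q₂) with hgdef
    have hg0 : 0 < g := Nat.gcd_pos_of_pos_left _ (Nat.mul_pos hP₁ x1)
    have hdiv : ∀ d ∈ g.divisors, d ∈ 𝒟 ∧ Cd α β P₁ P₂ d q₁ q₂ := by
      intro d hd
      have hdg : d ∣ g := Nat.dvd_of_mem_divisors hd
      have hd0 : 0 < d := Nat.pos_of_dvd_of_pos hdg hg0
      have d1 : d ∣ P₁ * pr β q₁ := hdg.trans (Nat.gcd_dvd_left _ _)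
      have d2 : d ∣ P₂ * pr β q₂ := hdg.trans (Nat.gcd_dvd_right _ _)
      have d3 : (d : ℤ) ∣ (((α * P₁ + 1) * q₁ : ℕ) : ℤ) - (((α * P₂ + 1) * q₂ : ℕ) : ℤ) :=
        (Int.natCast_dvd_natCast.2 hdg).trans hg
      have s := (hSTR α β P₁ P₂ (pr β q₁) (pr β q₂) d hd0 d1 d2
        (by rw [← e1, ← e2]; exact d3)).2.2.2
      have hA : Adm W P₁ P₂ δ d :=
        ⟨hd0, Nat.Coprime.of_dvd_left d1 (Nat.Coprime.mul_left hc₁ w1), s⟩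
      obtain ⟨_, _, _, _, _, _, _, _, _, _, _, hle, _⟩ := hDEC W P₁ P₂ δ d hP₁ hP₂ hδ hA
      refine ⟨?_, d1, d2, d3⟩
      rw [h𝒟, mem_filter, mem_Icc]
      exact ⟨⟨hd0, hle⟩, hA⟩
    have hsum : (g : ℝ) = ∑ d ∈ g.divisors, (d.totient : ℝ) := by
      have := Nat.sum_totient g
      exact_mod_cast this.symm
    rw [hsum, Finset.sum_div]
    calc ∑ d ∈ g.divisors, (d.totient : ℝ) / ((pr β q₁ : ℝ) * (pr β q₂ : ℝ))
        = ∑ d ∈ g.divisors, (d.totient : ℝ) *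
          (if Cd α β P₁ P₂ d q₁ q₂ then 1 / ((pr β q₁ : ℝ) * (pr β q₂ : ℝ)) else 0) := by
          refine Finset.sum_congr rfl fun d hd => ?_
          rw [if_pos (hdiv d hd).2, mul_one_div]
      _ ≤ _ := Finset.sum_le_sum_of_subset_of_nonneg (fun d hd => (hdiv d hd).1)
          (fun d hd _ => hnn d hd)
  · rw [zero_div]
    exact Finset.sum_nonneg hnn

end Pool.Agent.EPT
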