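import Pool.Agent.helper79.EPT.Spec

/-! # Project EPT (MP_f10000_nt), row KBB -/

set_option autoImplicit false

open scoped Classical

namespace Pool.Agent.EPT

open Finset

lemma KBB_key (hSTR : STR_stmt) {W α β P₁ P₂ M : ℕ} {B : ℝ} {Q : Finset ℕ} {d : ℕ} (hQ : QH W β M B Q)
    (hd : 0 < d) (q₁ q₂ : ℕ) (h₁ : q₁ ∈ Q) (h₂ : q₂ ∈ Q) (h : Cd α β P₁ P₂ d q₁ q₂) :
    ((d / Nat.gcd d P₁ : ℕ) : ℤ) ∣ (q₁ : ℤ) - 1 ∧ ((d / Nat.gcd d P₂ : ℕ) : ℤ) ∣ (q₂ : ℤ) - 1 ∧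
      (d : ℤ) ∣ ((α * P₁ + 1 : ℕ) : ℤ) - ((α * P₂ + 1 : ℕ) : ℤ) + (q₁ : ℤ) - (q₂ : ℤ) := by
  have e1 := hQ.eq q₁ h₁
  have e2 := hQ.eq q₂ h₂
  obtain ⟨ha, hb, hc⟩ := h
  obtain ⟨s1, s2, s3, _⟩ := hSTR α β P₁ P₂ (pr β q₁) (pr β q₂) d hd ha hb
    (by rw [← e1, ← e2]; exact hc)
  rw [← e1, ← e2] at s3
  refine ⟨?_, ?_, s3⟩
  · have h3 : (q₁ : ℤ) - 1 = (β : ℤ) * (pr β q₁ : ℤ) := by
      have : (q₁ : ℤ) = ((β * pr β q₁ + 1 : ℕ) : ℤ) := by rw [← e1]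
      rw [this]
      push_cast
      ring
    rw [h3]
    exact Dvd.dvd.mul_left (Int.natCast_dvd_natCast.2 s1) _
  · have h3 : (q₂ : ℤ) - 1 = (β : ℤ) * (pr β q₂ : ℤ) := by
      have : (q₂ : ℤ) = ((β * pr β q₂ + 1 : ℕ) : ℤ) := by rw [← e2]
      rw [this]
      push_cast
      ring
    rw [h3]
    exact Dvd.dvd.mul_left (Int.natCast_dvd_natCast.2 s2) _

theorem KBB (hSTR : STR_stmt) : KBB_stmt := by
  intro W α β P₁ P₂ M B Q d hQ hd hdM hdW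
  have key := KBB_key (α := α) (P₁ := P₁) (P₂ := P₂) hSTR hQ hd
  have hφd : 0 < (d.totient : ℝ) := by exact_mod_cast Nat.totient_pos.2 hd
  have he1 : d / Nat.gcd d P₁ ∣ d := Nat.div_dvd_of_dvd (Nat.gcd_dvd_left d P₁)
  have he2 : d / Nat.gcd d P₂ ∣ d := Nat.div_dvd_of_dvd (Nat.gcd_dvd_left d P₂)
  have hl : lc P₁ P₂ d ∣ d := Nat.lcm_dvd he1 he2
  have hl0 : 0 < lc P₁ P₂ d := Nat.pos_of_dvd_of_pos hl hd
  have hφl : 0 < ((lc P₁ P₂ d).totient : ℝ) := by exact_mod_cast Nat.totient_pos.2 hl0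
  have hB := hQ.nn
  by_cases hex : ∃ a₁ ∈ Q, ∃ a₂ ∈ Q, Cd α β P₁ P₂ d a₁ a₂
  · obtain ⟨a₁, ha₁, a₂, ha₂, ha⟩ := hex
    obtain ⟨k1, k2, k3⟩ := key a₁ a₂ ha₁ ha₂ ha
    -- the class of the first variable
    have hcl : ∀ q₁ ∈ Q, ∀ q₂ ∈ Q, Cd α β P₁ P₂ d q₁ q₂ → q₁ % (lc P₁ P₂ d) = a₁ % (lc P₁ P₂ d) := by
      intro q₁ h1 q₂ h2 h
      obtain ⟨j1, j2, j3⟩ := key q₁ q₂ h1 h2 h
      have m1 : ((d / Nat.gcd d P₁ : ℕ) : ℤ) ∣ (a₁ : ℤ) - (q₁ : ℤ) := by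
        have := dvd_sub k1 j1
        have e : (a₁ : ℤ) - 1 - ((q₁ : ℤ) - 1) = (a₁ : ℤ) - (q₁ : ℤ) := by ring
        rwa [e] at this
      have m2 : ((d / Nat.gcd d P₂ : ℕ) : ℤ) ∣ (a₁ : ℤ) - (q₁ : ℤ) := by
        have t1 : ((d / Nat.gcd d P₂ : ℕ) : ℤ) ∣ (d : ℤ) := Int.natCast_dvd_natCast.2 he2
        have t2 := dvd_sub (t1.trans k3) (t1.trans j3)
        have t3 := dvd_add t2 (dvd_sub k2 j2)
        have e : ((α * P₁ + 1 : ℕ) : ℤ) - ((α * P₂ + 1 : ℕ) : ℤ) + (a₁ : ℤ) - (a₂ : ℤ) -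
            (((α * P₁ + 1 : ℕ) : ℤ) - ((α * P₂ + 1 : ℕ) : ℤ) + (q₁ : ℤ) - (q₂ : ℤ)) +
            ((a₂ : ℤ) - 1 - ((q₂ : ℤ) - 1)) = (a₁ : ℤ) - (q₁ : ℤ) := by ring
        rwa [e] at t3
      have m3 : ((lc P₁ P₂ d : ℕ) : ℤ) ∣ (a₁ : ℤ) - (q₁ : ℤ) := by
        rw [Int.natCast_dvd] at m1 m2 ⊢
        exact Nat.lcm_dvd m1 m2
      exact (Nat.modEq_iff_dvd.2 m3)
    -- the inner sum
    have hin : ∀ q₁ ∈ Q, ∑ q₂ ∈ Q, (if Cd α β P₁ P₂ d q₁ q₂ then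
        1 / ((pr β q₁ : ℝ) * (pr β q₂ : ℝ)) else 0) ≤ if q₁ % (lc P₁ P₂ d) = a₁ % (lc P₁ P₂ d) then
          1 / (pr β q₁ : ℝ) * (B / (d.totient : ℝ)) else 0 := by
      intro q₁ h1
      by_cases hq : ∃ b ∈ Q, Cd α β P₁ P₂ d q₁ b
      · obtain ⟨b, hb, hbC⟩ := hq
        rw [if_pos (hcl q₁ h1 b hb hbC)]
        have hbt := hQ.bt d b hd hdM hdW
        have hx : 0 ≤ 1 / (pr β q₁ : ℝ) := by positivity
        calc ∑ q₂ ∈ Q, (if Cd α β P₁ P₂ d q₁ q₂ then 1 / ((pr β q₁ : ℝ) * (pr β q₂ : ℝ)) else 0)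
            ≤ ∑ q₂ ∈ Q, (if q₂ % d = b % d then 1 / (pr β q₁ : ℝ) * (1 / (pr β q₂ : ℝ)) else 0) := by
              refine Finset.sum_le_sum fun q₂ h2 => ?_
              by_cases hC : Cd α β P₁ P₂ d q₁ q₂
              · have hm : q₂ % d = b % d := by
                  obtain ⟨_, _, j3⟩ := key q₁ q₂ h1 h2 hC
                  obtain ⟨_, _, i3⟩ := key q₁ b h1 hb hbC
                  have t := dvd_sub j3 i3
                  have e : ((α * P₁ + 1 : ℕ) : ℤ) - ((α * P₂ + 1 : ℕ) : ℤ) + (q₁ : ℤ) - (q₂ : ℤ) -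
                      (((α * P₁ + 1 : ℕ) : ℤ) - ((α * P₂ + 1 : ℕ) : ℤ) + (q₁ : ℤ) - (b : ℤ)) =
                      (b : ℤ) - (q₂ : ℤ) := by ring
                  rw [e] at t
                  exact (Nat.modEq_iff_dvd.2 t)
                rw [if_pos hC, if_pos hm, one_div_mul_one_div]
              · rw [if_neg hC]
                split_ifs
                · positivity
                · exact le_refl _
          _ = 1 / (pr β q₁ : ℝ) * ∑ q₂ ∈ Q.filter (fun q => q % d = b % d), 1 / (pr β q₂ : ℝ) := by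
              rw [Finset.mul_sum, Finset.sum_filter]
          _ ≤ 1 / (pr β q₁ : ℝ) * (B / (d.totient : ℝ)) := mul_le_mul_of_nonneg_left hbt hx
      · push Not at hq
        rw [Finset.sum_eq_zero (fun q₂ h2 => if_neg (hq q₂ h2))]
        split_ifs
        · positivity
        · exact le_refl _
    have hout : ∑ q₁ ∈ Q, ∑ q₂ ∈ Q, (if Cd α β P₁ P₂ d q₁ q₂ then
        1 / ((pr β q₁ : ℝ) * (pr β q₂ : ℝ)) else 0) ≤
          (B / ((lc P₁ P₂ d).totient : ℝ)) * (B / (d.totient : ℝ)) := by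
      calc _ ≤ ∑ q₁ ∈ Q, (if q₁ % (lc P₁ P₂ d) = a₁ % (lc P₁ P₂ d) then
          1 / (pr β q₁ : ℝ) * (B / (d.totient : ℝ)) else 0) := Finset.sum_le_sum hin
        _ = (∑ q₁ ∈ Q.filter (fun q => q % (lc P₁ P₂ d) = a₁ % (lc P₁ P₂ d)), 1 / (pr β q₁ : ℝ)) *
            (B / (d.totient : ℝ)) := by rw [Finset.sum_mul, Finset.sum_filter]
        _ ≤ _ := mul_le_mul_of_nonneg_right
            (hQ.bt (lc P₁ P₂ d) a₁ hl0 ((Nat.le_of_dvd hd hl).trans hdM) (Nat.Coprime.of_dvd_left hl hdW))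
            (by positivity)
    calc (d.totient : ℝ) * _ ≤ (d.totient : ℝ) * ((B / ((lc P₁ P₂ d).totient : ℝ)) * (B / (d.totient : ℝ))) :=
          mul_le_mul_of_nonneg_left hout hφd.le
      _ = B ^ 2 / ((lc P₁ P₂ d).totient : ℝ) := by field_simp
  · push Not at hex
    rw [Finset.sum_eq_zero (fun q₁ h1 => Finset.sum_eq_zero (fun q₂ h2 => if_neg (hex q₁ h1 q₂ h2))), mul_zero]
    positivity

end Pool.Agent.EPT
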