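import Pool.Agent.helper60.EPT.SpecS

/-!
# Row sr:DST (MP_2b48c2_lc): one step of the branching for lists of clauses
-/

set_option autoImplicit false

namespace Pool.Agent.EPT

open D

theorem DST_fs (F : D) (C : Finset D) : C ∈ fs F ↔ ∃ c ∈ F.toList, cs c = C := by
  unfold fs
  rw [List.mem_toFinset, List.mem_map]

theorem DST_h1 (F H : D) : H ∈ (h1 F).toList ↔ ∃ c ∈ F.toList, ∃ l ∈ c.toList, cons l nil = H := by
  unfold h1
  rw [toList_ofList, List.mem_flatMap]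
  simp only [List.mem_map]

theorem DST_h2 (F H : D) : H ∈ (h2 F).toList ↔
    ∃ c ∈ F.toList, ∃ l ∈ c.toList, ∃ l' ∈ c.toList, l' ≠ l ∧ cons l (cons l' nil) = H := by
  unfold h2
  rw [toList_ofList, List.mem_flatMap]
  simp only [List.mem_flatMap, List.mem_map, List.mem_filter, decide_eq_true_eq, and_assoc]

theorem DST_cn (a j : ℕ) (F hs : D) (h : cn a j F hs ≠ nil) :
    (cn a j F hs).fst ∈ hs.toList ∧ a ≤ (flw F j (cn a j F hs).fst).toList.length := by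
  have h1 : (cn a j F hs).fst ∈ (cn a j F hs).toList := by
    cases e : cn a j F hs with
    | nil => exact absurd e h
    | cons u v => simp
  have h2 : (cn a j F hs).toList = hs.toList.filter fun H => a ≤ (flw F j H).toList.length := by
    conv_lhs => unfold cn
    rw [toList_ofList]
  rw [h2, List.mem_filter, decide_eq_true_eq] at h1
  exact h1

theorem DST_cn0 (a j : ℕ) (F hs : D) (h : cn a j F hs = nil) (H : D) (hH : H ∈ hs.toList) :
    (flw F j H).toList.length < a := by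
  by_contra h0
  push Not at h0
  have h1 : H ∈ (cn a j F hs).toList := by
    unfold cn
    rw [toList_ofList, List.mem_filter, decide_eq_true_eq]
    exact ⟨hH, h0⟩
  rw [h] at h1
  simp at h1

theorem DST_cs1 (l : D) : cs (cons l nil) = {l} := by
  simp [cs]

theorem DST_cs2 (l l' : D) : cs (cons l (cons l' nil)) = {l, l'} := by
  ext x
  simp [cs]

theorem DST_pos (a j : ℕ) (F : D) (H : Finset D) (ha : 1 ≤ a) (h0 : a ≤ deg (fs F) j H) :
    ∃ c ∈ F.toList, ∀ l ∈ H, l ∈ c.toList := by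
  have h1 : 0 < deg (fs F) j H := by omega
  unfold deg at h1
  rw [Finset.card_pos] at h1
  obtain ⟨C, hC⟩ := h1
  rw [Finset.mem_filter] at hC
  obtain ⟨c, hc, hcC⟩ := (DST_fs F C).1 hC.1
  refine ⟨c, hc, fun l hl => ?_⟩
  have h2 : l ∈ C := hC.2.2 hl
  rw [← hcC] at h2
  exact List.mem_toFinset.1 h2

theorem DST_no1 (hDAB : DAB_stmt) (a j : ℕ) (F : D) (ha : 1 ≤ a) (hF : Nd F) (h : cn a j F (h1 F) = nil) (l : D) :
    deg (fs F) j {l} < a := by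
  by_contra h0
  push Not at h0
  obtain ⟨c, hc, hl⟩ := DST_pos a j F {l} ha h0
  have h3 := DST_cn0 a j F (h1 F) h (cons l nil) ((DST_h1 F _).2 ⟨c, hc, l, hl l (Finset.mem_singleton_self l), rfl⟩)
  rw [hDAB.2.1 F j (cons l nil) hF, DST_cs1] at h3
  omega

theorem DST_no2 (hDAB : DAB_stmt) (a j : ℕ) (F : D) (ha : 1 ≤ a) (hF : Nd F) (h : cn a j F (h2 F) = nil) (H : Finset D)
    (hH : H.card = 2) : deg (fs F) j H < a := by
  by_contra h0
  push Not at h0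
  obtain ⟨c, hc, hl⟩ := DST_pos a j F H ha h0
  obtain ⟨x, y, hxy, rfl⟩ := Finset.card_eq_two.1 hH
  have h3 := DST_cn0 a j F (h2 F) h (cons x (cons y nil))
    ((DST_h2 F _).2 ⟨c, hc, x, hl x (by simp), y, hl y (by simp), hxy.symm, rfl⟩)
  rw [hDAB.2.1 F j _ hF, DST_cs2] at h3
  omega

theorem DST_two (hDAB : DAB_stmt) (F : D) (j : ℕ) (H : D) (hF : Nd F) (hH : H.toList.Nodup) :
    ∃ F1 F2 : D, two F j H = cons F1 (cons F2 nil) ∧ Nd F1 ∧ Nd F2 ∧ fs F1 = red (fs F ∪ {cs H}) ∧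
      fs F2 = red (fs F ∪ pet (fs F) j (cs H)) := by
  obtain ⟨hA, _, hC, hE⟩ := hDAB
  obtain ⟨h1, h2⟩ := hA (cons H F) (by
    intro c hc
    rw [toList_cons, List.mem_cons] at hc
    rcases hc with rfl | hc
    · exact hH
    · exact hF.2 c hc)
  obtain ⟨h3, h4⟩ := hC F j H hF
  obtain ⟨h5, h6⟩ := hA _ h4
  refine ⟨_, _, rfl, h1, h5, ?_, ?_⟩
  · rw [h2, hE]
  · rw [h6, h3]

theorem DST_i1 (a j : ℕ) (F : D) (h : cn a j F (h1 F) ≠ nil) :
    (cn a j F (h1 F)).fst.toList.Nodup ∧ (cs (cn a j F (h1 F)).fst).card = 1 ∧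
      a ≤ (flw F j (cn a j F (h1 F)).fst).toList.length := by
  obtain ⟨g1, g2⟩ := DST_cn a j F (h1 F) h
  obtain ⟨c, _, l, _, hl⟩ := (DST_h1 F _).1 g1
  refine ⟨?_, ?_, g2⟩
  · rw [← hl]
    simp
  · rw [← hl, DST_cs1]
    simp

theorem DST_i2 (a j : ℕ) (F : D) (h : cn a j F (h2 F) ≠ nil) :
    (cn a j F (h2 F)).fst.toList.Nodup ∧ (cs (cn a j F (h2 F)).fst).card = 2 ∧
      a ≤ (flw F j (cn a j F (h2 F)).fst).toList.length := by
  obtain ⟨g1, g2⟩ := DST_cn a j F (h2 F) h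
  obtain ⟨c, _, l, _, l', _, hne, hl⟩ := (DST_h2 F _).1 g1
  refine ⟨?_, ?_, g2⟩
  · rw [← hl]
    simp [hne.symm]
  · rw [← hl, DST_cs2]
    exact Finset.card_pair hne.symm

theorem DST (hDAB : DAB_stmt) : DST_stmt := by
  intro a b F ha hb hF
  unfold stp
  by_cases e1 : cn a 2 F (h1 F) ≠ nil
  · right
    rw [if_pos e1]
    obtain ⟨i1, i2, i3⟩ := DST_i1 a 2 F e1
    obtain ⟨F1, F2, t1, t2, t3, t4, t5⟩ := DST_two hDAB F 2 _ hF i1
    refine ⟨2, _, F1, F2, t1, Or.inl ⟨rfl, i2, ?_⟩, t2, t3, t4, t5⟩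
    rw [← hDAB.2.1 F 2 _ hF]
    exact i3
  rw [if_neg e1]
  push Not at e1
  have n1 : ∀ l, deg (fs F) 2 {l} < a := DST_no1 hDAB a 2 F ha hF e1
  by_cases e2 : cn a 3 F (h2 F) ≠ nil
  · right
    rw [if_pos e2]
    obtain ⟨i1, i2, i3⟩ := DST_i2 a 3 F e2
    obtain ⟨F1, F2, t1, t2, t3, t4, t5⟩ := DST_two hDAB F 3 _ hF i1
    refine ⟨3, _, F1, F2, t1, Or.inr (Or.inl ⟨rfl, i2, ?_, n1⟩), t2, t3, t4, t5⟩
    rw [← hDAB.2.1 F 3 _ hF]
    exact i3
  rw [if_neg e2]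
  push Not at e2
  have n2 : ∀ H : Finset D, H.card = 2 → deg (fs F) 3 H < a := DST_no2 hDAB a 3 F ha hF e2
  by_cases e3 : cn b 3 F (h1 F) ≠ nil
  · right
    rw [if_pos e3]
    obtain ⟨i1, i2, i3⟩ := DST_i1 b 3 F e3
    obtain ⟨F1, F2, t1, t2, t3, t4, t5⟩ := DST_two hDAB F 3 _ hF i1
    refine ⟨3, _, F1, F2, t1, Or.inr (Or.inr ⟨rfl, i2, ?_, n1, n2⟩), t2, t3, t4, t5⟩
    rw [← hDAB.2.1 F 3 _ hF]
    exact i3
  rw [if_neg e3]
  push Not at e3
  exact Or.inl ⟨rfl, n1, n2, DST_no1 hDAB b 3 F hb hF e3⟩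

end Pool.Agent.EPT
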